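import Mathlib
import Pool.Agent.H839.DM.Open

/-!
# Injectivity of the cycle maps of smooth varieties over a finite field, and geometric motives

Let `k` be a finite field, and let `ℓ` and `ℓ'` be two primes different from its characteristic (they
may be equal). We show that the following statements are equivalent.

1. The maps `CH^j(X, 2j-i) ⊗ ℚ ⟶ H^i(X̄, ℚ_ℓ(j))` are injective for all smooth varieties `X` over `k`
   and all `i`, `j`.
2. The maps `CH^j(X, 2j-i) ⊗ ℚ_ℓ' ⟶ H^i(X̄, ℚ_ℓ'(j))` are injective for all smooth `X` and all `i`,
   `j`; this is Q1 (over `k`, for the prime `ℓ'`).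
3. The pairings `H^i(Y, ℚ(n)) × H^(2d-i)(Y, ℚ(d-n)) → ℚ` are perfect for all smooth projective `Y` and
   all `i`, `n`.
4. The category `DM_gm(k)` of geometric motives of Voevodsky with rational coefficients is abelian.
5. For all geometric motives `P`, `N` the map `Hom(P, N) ⊗ ℚ_ℓ' ⟶ Hom(H(P), H(N))` is injective.

So Beilinson's conjecture Q1 does not depend on `ℓ`, it is enough to consider `ℚ`-coefficients, it is
equivalent to the perfectness of the pairings of smooth projective varieties, it extends to all
morphisms of geometric motives, and it can be stated without cohomology: `DM_gm(k)` has kernels and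
cokernels. The conjecture of Tate is not used.

## The setting

`D` is `DM_gm(k)`: an idempotent complete triangulated category and a rigid symmetric tensor category,
linear over `F = ℚ`, with `End(𝟙) = ℚ`. `Sm` is the class of the objects `M(X)^∨(j)[i]`, `X` smooth;
`Hom(𝟙, M(X)^∨(j)[i]) = CH^j(X, 2j-i) ⊗ ℚ`. `S` is the class of the objects `M(Y)^∨(j)[i]` for smooth
projective connected `Y`. It is stable under shifts and duals and it generates `D` as a triangulated
category closed under retracts (Voevodsky, Gabber, Kelly, Bondarko). The first statement is
`R.CycleMapsInjective Sm`, and the second one is `R'.CycleMapsKInjective Sm`, where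
`R : Realization ℚ ℚ_ℓ D` and `R' : Realization ℚ ℚ_ℓ' D` are the `ℓ`-adic and the `ℓ'`-adic
realization: `ev` and `od` are the sums of the cohomology groups in even and odd degrees, and the
Lefschetz trace formula holds for the categorical trace; the class `c(f)` of `f : 𝟙 ⟶ M(X)^∨(j)[i]` is
given by the realization `ev f`.

The known facts `hR`, `hR'` on the objects `M = M(Y)^∨(n)[i]` of `S`:

* `i ≠ 2 n`: `H^i(Ȳ, ℚ_ℓ(n))` has no nonzero Frobenius invariants (Deligne), so the classes of all
  morphisms `𝟙 ⟶ M` are zero (`NoClasses`);
* `i = 2 n`: `HasBundles`. Let `x ∈ CH^n(Y)_ℚ`, `n > 0`. A multiple of `x` is the difference of the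
  Chern characters of two vector bundles `E`, `E'` of the same rank on `Y`; let `V_x ⟶ Y` be the
  bundle of isomorphisms from `E'` to `E`. Then `CH(V_x)_ℚ = CH(Y)_ℚ / x CH(Y)_ℚ`. (If `n = 0` and
  `x ≠ 0` take `V_x` empty; if `x = 0` take `V_x = Y`.)

## The proof

1 → 3: let `x : 𝟙 ⟶ M(Y)^∨(n)[2n]` be nonzero and numerically trivial. By 1 (for `Y`) its class is
not zero, so the class of a closed point of `Y` is a multiple of it by Poincaré duality, and vanishes
on `V_x`. By 1 (for `V_x`) the point is rationally equivalent to zero on `V_x`, so it is a multiple of
`x`, which contradicts that its degree is not zero. For 3 ↔ 4 ↔ 5 see `main` in the imported files: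
trace forms and the argument of Jannsen show that all rings of endomorphisms are semisimple.
-/

set_option autoImplicit false

open CategoryTheory CategoryTheory.Limits MonoidalCategory

universe u v w x

namespace Pool.Agent.Results.MP_b52861_ag.InjectivityGeometricMotives

open Pool.Agent.H839.DM

/-- **The injectivity of the cycle maps of all smooth varieties and geometric motives.** The
following are equivalent: the cycle maps with `F`-coefficients are injective for all smooth varieties
(for the realization `R`); the cycle maps with `K'`-coefficients are injective for all smooth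
varieties (for the realization `R'`); the motivic pairings of smooth projective varieties are perfect;
the category of geometric motives is abelian; the realization `R'` with `K'`-coefficients is faithful
on all geometric motives. -/
theorem result {F : Type w} [Field F] [CharZero F] {K K' : Type x} [Field K] [Algebra F K]
    [Field K'] [Algebra F K']
    {D : Type u} [Category.{v} D] [Preadditive D] [Linear F D] [MonoidalCategory D]
    [MonoidalPreadditive D] [MonoidalLinear F D] [SymmetricCategory D] [RightRigidCategory D]
    [HasZeroObject D] [HasShift D ℤ] [∀ n : ℤ, (shiftFunctor D n).Additive] [Pretriangulated D]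
    [IsIdempotentComplete D]
    (hunit : ∀ f : 𝟙_ D ⟶ 𝟙_ D, ∃ c : F, f = c • 𝟙 (𝟙_ D))
    (R : Realization F K D) (R' : Realization F K' D)
    (S Sm : ObjectProperty D) [S.IsStableUnderShift ℤ] (hS : S.IsClassicalTriangulatedGenerator)
    (hdual : ∀ M, S M → S (Mᘁ)) (hle : S ≤ Sm)
    (hR : ∀ M, S M → R.NoClasses M ∨ R.HasBundles Sm M)
    (hR' : ∀ M, S M → R'.NoClasses M ∨ R'.HasBundles Sm M) :
    List.TFAE [
      R.CycleMapsInjective Sm,
      R'.CycleMapsKInjective Sm,
      ∀ M, S M → UnitPerfect F M,
      Nonempty (Abelian D),
      R'.KFaithful] :=
  main_open R R' hunit S Sm hS hdual hle hR hR'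

end Pool.Agent.Results.MP_b52861_ag.InjectivityGeometricMotives
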